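import Mathlib

/-!
# Hayashi's conjecture for conjugation quandles fails

The counterexample is the wreath product `C₁₀₅ ≀ S₅` with the conjugacy class of
`c = (1, 1, g³⁵, g²¹, g¹⁵) · (0 1)`, where `g` generates `C₁₀₅`.
-/

namespace Pool.Agent.Results.MP_d14d1f_al.HayashiFails

/-- The base group `(C₁₀₅)^5`, written as functions `Fin 5 → Multiplicative (ZMod 105)`. -/
abbrev Base : Type := Fin 5 → Multiplicative (ZMod 105)

/-- `S₅` acts on the base group by permuting coordinates. -/
def act : Equiv.Perm (Fin 5) →* MulAut Base where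
  toFun σ :=
    { toFun := fun f => f ∘ σ.symm
      invFun := fun f => f ∘ σ
      left_inv := fun f => by funext i; simp
      right_inv := fun f => by funext i; simp
      map_mul' := fun f g => by funext i; simp }
  map_one' := by ext f i; rfl
  map_mul' σ τ := by ext f i; rfl

@[simp] lemma act_apply (σ : Equiv.Perm (Fin 5)) (f : Base) (i : Fin 5) :
    act σ f i = f (σ.symm i) := rfl

/-- The wreath product `C₁₀₅ ≀ S₅`. -/
abbrev G : Type := Base ⋊[act] Equiv.Perm (Fin 5)

/-- The vector `(1, 1, g³⁵, g²¹, g¹⁵)`. -/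
def v : Base := fun i => Multiplicative.ofAdd (![0, 0, 35, 21, 15] i)

/-- The transposition `(0 1)`. -/
def t : Equiv.Perm (Fin 5) := Equiv.swap 0 1

/-- The element whose class is the counterexample. -/
def c : G := ⟨v, t⟩

lemma c_sq : c ^ 2 = SemidirectProduct.inl (v ^ 2) := by
  rw [pow_two]
  apply SemidirectProduct.ext
  · simp only [c, SemidirectProduct.mul_left, SemidirectProduct.left_inl]
    rw [pow_two]
    congr 1
    funext i
    fin_cases i <;> decide
  · simp only [c, SemidirectProduct.mul_right, SemidirectProduct.right_inl]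
    decide

lemma c_pow (k : ℕ) : c ^ (2 * k) = SemidirectProduct.inl (v ^ (2 * k)) := by
  rw [pow_mul, c_sq, ← map_pow, ← pow_mul]

/-- `a` placed in coordinate `i`. -/
def e (i : Fin 5) (a : ZMod 105) : G :=
  SemidirectProduct.inl (Pi.mulSingle i (Multiplicative.ofAdd a))

lemma v_pow_70 : v ^ 70 = (Pi.mulSingle 2 (Multiplicative.ofAdd (35 : ZMod 105)) : Base) := by
  funext i
  rw [Pi.pow_apply, v, ← ofAdd_nsmul]
  revert i
  decide

lemma v_pow_42 : v ^ 42 = (Pi.mulSingle 3 (Multiplicative.ofAdd (42 : ZMod 105)) : Base) := by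
  funext i
  rw [Pi.pow_apply, v, ← ofAdd_nsmul]
  revert i
  decide

lemma v_pow_30 : v ^ 30 = (Pi.mulSingle 4 (Multiplicative.ofAdd (30 : ZMod 105)) : Base) := by
  funext i
  rw [Pi.pow_apply, v, ← ofAdd_nsmul]
  revert i
  decide

lemma c_pow_70 : c ^ 70 = e 2 35 := by
  have h := c_pow 35
  rw [show 2 * 35 = 70 from rfl, v_pow_70] at h
  exact h

lemma c_pow_42 : c ^ 42 = e 3 42 := by
  have h := c_pow 21
  rw [show 2 * 21 = 42 from rfl, v_pow_42] at h
  exact h

lemma c_pow_30 : c ^ 30 = e 4 30 := by
  have h := c_pow 15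
  rw [show 2 * 15 = 30 from rfl, v_pow_30] at h
  exact h

lemma conj_e (g : G) (i : Fin 5) (a : ZMod 105) :
    g * e i a * g⁻¹ = e (g.right i) a := by
  obtain ⟨f, σ⟩ := g
  have hf : (⟨f, σ⟩ : G) = SemidirectProduct.inl f * SemidirectProduct.inr σ := by
    simp
  rw [hf]
  have h1 : (SemidirectProduct.inr σ : G) * e i a * (SemidirectProduct.inr σ)⁻¹ = e (σ i) a := by
    unfold e
    rw [← map_inv, ← SemidirectProduct.inl_aut]
    congr 1
    funext j
    simp only [act_apply, Pi.mulSingle_apply]
    by_cases h : j = σ i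
    · subst h; simp
    · have : ¬ (σ.symm j = i) := by
        intro h'; apply h; rw [← h']; simp
      simp [h, this]
  have h2 : (SemidirectProduct.inl f : G) * e (σ i) a * (SemidirectProduct.inl f)⁻¹ = e (σ i) a := by
    unfold e
    rw [← map_inv, ← map_mul, ← map_mul]
    congr 1
    rw [mul_comm f, mul_inv_cancel_right]
  calc _ = SemidirectProduct.inl f * (SemidirectProduct.inr σ * e i a * (SemidirectProduct.inr σ)⁻¹)
        * (SemidirectProduct.inl f : G)⁻¹ := by group
    _ = _ := by rw [h1, h2]; simp

/-- `g` commutes with `e i a` when the permutation part of `g` fixes `i`. -/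
lemma commute_e (g : G) (i : Fin 5) (a : ZMod 105) (h : g.right i = i) :
    Commute (e i a) g := by
  have := conj_e g i a
  rw [h] at this
  have h2 : g * e i a = e i a * g := by
    rw [mul_inv_eq_iff_eq_mul] at this
    exact this
  exact h2.symm

lemma e_not_central (i : Fin 5) (a : ZMod 105) (ha : a ≠ 0) :
    e i a ∉ Subgroup.center G := by
  intro h
  obtain ⟨j, hj⟩ : ∃ j : Fin 5, j ≠ i := exists_ne i
  rw [Subgroup.mem_center_iff] at h
  have h1 := h (SemidirectProduct.inr (Equiv.swap i j))
  have h2 := conj_e (SemidirectProduct.inr (Equiv.swap i j)) i a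
  rw [h1, mul_inv_cancel_right] at h2
  simp only [SemidirectProduct.right_inr, Equiv.swap_apply_left] at h2
  unfold e at h2
  have h3 := SemidirectProduct.inl_injective h2
  have h4 := congrFun h3 i
  rw [Pi.mulSingle_eq_same, Pi.mulSingle_eq_of_ne hj.symm] at h4
  exact ha (by simpa using h4)

/-- The normal subgroup generated by `c` is everything. -/
lemma normalClosure_c : Subgroup.normalClosure {c} = ⊤ := by
  set N := Subgroup.normalClosure {c} with hN
  have hNn : N.Normal := Subgroup.normalClosure_normal
  have hc : c ∈ N := Subgroup.subset_normalClosure rfl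
  have hmove : ∀ (i j : Fin 5) (a : ZMod 105), e i a ∈ N → e j a ∈ N := by
    intro i j a h
    have := hNn.conj_mem _ h (SemidirectProduct.inr (Equiv.swap i j))
    rw [conj_e] at this
    simpa using this
  have hpow : ∀ (i : Fin 5) (a : ZMod 105) (n : ℕ), e i a ∈ N → e i (n * a) ∈ N := by
    intro i a n h
    have := N.pow_mem h n
    unfold e at this ⊢
    rw [← map_pow, ← Pi.mulSingle_pow, ← ofAdd_nsmul, nsmul_eq_mul] at this
    exact this
  have hadd : ∀ (i : Fin 5) (a b : ZMod 105), e i a ∈ N → e i b ∈ N → e i (a + b) ∈ N := by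
    intro i a b h1 h2
    have := N.mul_mem h1 h2
    unfold e at this ⊢
    rw [← map_mul, ← Pi.mulSingle_mul, ← ofAdd_add] at this
    exact this
  have h35 : e 2 35 ∈ N := by rw [← c_pow_70]; exact N.pow_mem hc _
  have h42 : e 3 42 ∈ N := by rw [← c_pow_42]; exact N.pow_mem hc _
  have h30 : e 4 30 ∈ N := by rw [← c_pow_30]; exact N.pow_mem hc _
  have hone : ∀ i : Fin 5, e i 1 ∈ N := by
    intro i
    have a1 := hpow i _ 2 (hmove _ i _ h35)
    have a2 := hpow i _ 3 (hmove _ i _ h42)
    have a3 := hpow i _ 4 (hmove _ i _ h30)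
    have := hadd i _ _ (hadd i _ _ a1 a2) a3
    have h1 : (((2 : ℕ) : ZMod 105) * 35 + ((3 : ℕ) : ZMod 105) * 42 + ((4 : ℕ) : ZMod 105) * 30)
        = 1 := by decide
    rwa [h1] at this
  have hall : ∀ (i : Fin 5) (a : ZMod 105), e i a ∈ N := by
    intro i a
    have := hpow i 1 a.val (hone i)
    simpa using this
  have hbase : ∀ f : Base, (SemidirectProduct.inl f : G) ∈ N := by
    intro f
    have hf : f = ∏ i, Pi.mulSingle i (f i) := (Finset.univ_prod_mulSingle f).symm
    have : f ∈ N.comap (SemidirectProduct.inl : Base →* G) := by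
      rw [hf]
      apply Subgroup.prod_mem
      intro i _
      exact hall i (Multiplicative.toAdd (f i))
    exact this
  have ht : (SemidirectProduct.inr t : G) ∈ N := by
    have h1 : (SemidirectProduct.inr t : G) = (SemidirectProduct.inl v)⁻¹ * c := by
      have : c = SemidirectProduct.inl v * SemidirectProduct.inr t := by
        simp [c]
      rw [this]; group
    rw [h1]
    exact N.mul_mem (N.inv_mem (hbase v)) hc
  have hperm : ∀ σ : Equiv.Perm (Fin 5), (SemidirectProduct.inr σ : G) ∈ N := by
    intro σ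
    have hmem : σ ∈ Subgroup.closure {τ : Equiv.Perm (Fin 5) | τ.IsSwap} := by
      rw [Equiv.Perm.closure_isSwap]; trivial
    have hle : Subgroup.closure {τ : Equiv.Perm (Fin 5) | τ.IsSwap} ≤
        N.comap (SemidirectProduct.inr : Equiv.Perm (Fin 5) →* G) := by
      rw [Subgroup.closure_le]
      intro τ hτ
      have hconj : IsConj t τ := by
        obtain ⟨a, b, hab, rfl⟩ := hτ
        exact Equiv.Perm.isConj_swap (by decide) hab
      obtain ⟨g, hg⟩ := isConj_iff.1 hconj
      show (SemidirectProduct.inr τ : G) ∈ N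
      rw [← hg, map_mul, map_mul, map_inv]
      exact hNn.conj_mem _ ht _
    exact hle hmem
  rw [eq_top_iff]
  intro g _
  have : g = SemidirectProduct.inl g.left * SemidirectProduct.inr g.right := by simp
  rw [this]
  exact N.mul_mem (hbase _) (hperm _)

/-- **Hayashi's conjecture fails for connected conjugation quandles.**
There are a finite group `G` and an element `c` whose conjugacy class generates `G`, such that
for every `z` in that class some power of `c` commutes with `z` without being central. -/
theorem result :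
    ∃ (G : Type) (_ : Group G) (_ : Finite G) (c : G),
      Subgroup.closure (conjugatesOf c) = ⊤ ∧
      ∀ z ∈ conjugatesOf c, ∃ k : ℤ, Commute (c ^ k) z ∧ c ^ k ∉ Subgroup.center G := by
  refine ⟨G, inferInstance, ?_, c, ?_, ?_⟩
  · exact Finite.of_equiv _ (SemidirectProduct.equivProd (φ := act)).symm
  · have := normalClosure_c
    rwa [Subgroup.normalClosure, show Group.conjugatesOfSet {c} = conjugatesOf c by
      simp [Group.conjugatesOfSet]] at this
  · intro z hz
    have hz : IsConj c z := hz
    rw [isConj_iff] at hz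
    obtain ⟨g, rfl⟩ := hz
    have hright : (g * c * g⁻¹).right = g.right * t * (g.right)⁻¹ := rfl
    have hswap : (g * c * g⁻¹).right = Equiv.swap (g.right 0) (g.right 1) := by
      rw [hright, t, Equiv.mul_swap_eq_swap_mul, mul_inv_cancel_right]
    have key : ∃ i : Fin 5, (i = 2 ∨ i = 3 ∨ i = 4) ∧ (g * c * g⁻¹).right i = i := by
      rw [hswap]
      have h01 : ∀ a b : Fin 5, ∃ i : Fin 5, (i = 2 ∨ i = 3 ∨ i = 4) ∧ Equiv.swap a b i = i := by
        decide
      exact h01 _ _
    obtain ⟨i, hi, hfix⟩ := key
    rcases hi with rfl | rfl | rfl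
    · refine ⟨70, ?_, ?_⟩
      · have h : c ^ (70 : ℤ) = e 2 35 := by exact_mod_cast c_pow_70
        rw [h]; exact commute_e _ _ _ hfix
      · have h : c ^ (70 : ℤ) = e 2 35 := by exact_mod_cast c_pow_70
        rw [h]; exact e_not_central _ _ (by decide)
    · refine ⟨42, ?_, ?_⟩
      · have h : c ^ (42 : ℤ) = e 3 42 := by exact_mod_cast c_pow_42
        rw [h]; exact commute_e _ _ _ hfix
      · have h : c ^ (42 : ℤ) = e 3 42 := by exact_mod_cast c_pow_42
        rw [h]; exact e_not_central _ _ (by decide)
    · refine ⟨30, ?_, ?_⟩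
      · have h : c ^ (30 : ℤ) = e 4 30 := by exact_mod_cast c_pow_30
        rw [h]; exact commute_e _ _ _ hfix
      · have h : c ^ (30 : ℤ) = e 4 30 := by exact_mod_cast c_pow_30
        rw [h]; exact e_not_central _ _ (by decide)

end Pool.Agent.Results.MP_d14d1f_al.HayashiFails
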